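import Mathlib
import Pool.Agent.Metab.Nonfree
import Pool.Agent.Metab.Mu
import Pool.Agent.Metab.Obstruct

set_option autoImplicit false

namespace Pool.Agent.Results.MP_52eb9f_al.RetractNotFree

universe u v w

/-- The second derived subgroup dies in a metabelian group. -/
theorem exists_lift {X : Type w} {A : Type u} [Group A] (hA : derivedSeries A 2 = ⊥) (a : X → A) :
    ∃ g : (FreeGroup X ⧸ derivedSeries (FreeGroup X) 2) →* A,
      ∀ x, g (QuotientGroup.mk (FreeGroup.of x)) = a x := by
  refine ⟨QuotientGroup.lift _ (FreeGroup.lift a) ?_, fun x => ?_⟩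
  · intro y hy
    have h := map_derivedSeries_le_derivedSeries (FreeGroup.lift a) 2
    rw [hA] at h
    exact (Subgroup.mem_bot).1 (h (Subgroup.mem_map_of_mem _ hy))
  · show FreeGroup.lift a (FreeGroup.of x) = a x
    exact FreeGroup.lift_apply_of

theorem hom_ext {X : Type w} {A : Type u} [Group A]
    {f g : (FreeGroup X ⧸ derivedSeries (FreeGroup X) 2) →* A}
    (h : ∀ x, f (QuotientGroup.mk (FreeGroup.of x)) = g (QuotientGroup.mk (FreeGroup.of x))) :
    f = g := by
  apply QuotientGroup.monoidHom_ext
  ext x
  exact h x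

theorem derivedSeries_comm {A : Type u} [CommGroup A] : derivedSeries A 2 = ⊥ := by
  rw [eq_bot_iff, ← commutator_eq_bot (G := A), ← derivedSeries_one]
  exact derivedSeries_antitone A (by norm_num)

theorem of_injective (X : Type w) : Function.Injective
    (fun x : X => (QuotientGroup.mk (FreeGroup.of x) : FreeGroup X ⧸ derivedSeries (FreeGroup X) 2)) := by
  classical
  intro x y hxy
  by_contra hne
  obtain ⟨g, hg⟩ := exists_lift (X := X) (A := Multiplicative ℤ) derivedSeries_comm
    (fun z => if z = x then Multiplicative.ofAdd (1 : ℤ) else 1)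
  have h1 := hg x
  have h2 := hg y
  simp only at hxy
  rw [if_pos rfl] at h1
  rw [if_neg (Ne.symm hne), ← hxy, h1] at h2
  exact absurd (Multiplicative.ofAdd.injective (h2.trans ofAdd_zero.symm)) (by norm_num)

/-- There is an idempotent endomorphism of the free metabelian group of countable rank whose image
is a projective metabelian group of countably infinite rank and is not free metabelian. -/
theorem result :
    ∃ e : (FreeGroup ℕ ⧸ derivedSeries (FreeGroup ℕ) 2) →*
        (FreeGroup ℕ ⧸ derivedSeries (FreeGroup ℕ) 2),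
      e.comp e = e ∧ Countable e.range ∧ ¬ Group.FG e.range ∧ derivedSeries e.range 2 = ⊥ ∧
      (∀ (A : Type u) (B : Type v) [Group A] [Group B],
        derivedSeries A 2 = ⊥ → derivedSeries B 2 = ⊥ →
        ∀ π : A →* B, Function.Surjective π →
        ∀ f : e.range →* B, ∃ g : e.range →* A, π.comp g = f) ∧
      (∀ X : Type w, IsEmpty (e.range ≃* (FreeGroup X ⧸ derivedSeries (FreeGroup X) 2))) := by
  classical
  obtain ⟨q, hq⟩ := exists_surjective_nat Metab.GG
  let p : Metab.FM ℕ →* Metab.GG := Metab.FM.lift q
  have hp : Function.Surjective p := fun g => by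
    obtain ⟨n, rfl⟩ := hq g
    exact ⟨Metab.FM.of n, Metab.FM.lift_of q n⟩
  obtain ⟨s, hs⟩ := Metab.projective p hp (MonoidHom.id Metab.GG)
  have hs' : ∀ x, p (s x) = x := fun x => DFunLike.congr_fun hs x
  let e : Metab.FM ℕ →* Metab.FM ℕ := s.comp p
  have hee : ∀ x, e (e x) = e x := fun x => by
    show s (p (s (p x))) = s (p x)
    rw [hs']
  have hidem : ∀ x ∈ e.range, e x = x := by
    rintro _ ⟨x, rfl⟩
    exact hee x
  -- the image of `e` is isomorphic to `GG`
  let i : Metab.GG ≃* e.range :=
    { toFun := fun x => ⟨s x, by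
        obtain ⟨y, rfl⟩ := hp x
        exact ⟨y, rfl⟩⟩
      invFun := fun y => p y.1
      left_inv := fun x => hs' x
      right_inv := fun y => by
        apply Subtype.ext
        exact hidem y.1 y.2
      map_mul' := fun x y => Subtype.ext (map_mul s x y) }
  have hcount : Countable e.range := i.symm.injective.countable
  have hfg : ¬ Group.FG e.range := fun h => Metab.not_fg
    (Group.fg_of_surjective (f := i.symm.toMonoidHom) i.symm.surjective)
  refine ⟨e, MonoidHom.ext hee, hcount, hfg, ?_, ?_, ?_⟩
  · have h := map_derivedSeries_eq (f := i.toMonoidHom) i.surjective (n := 2)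
    have hb : derivedSeries Metab.GG 2 = ⊥ := Metab.isMetab_derivedSeries
    rw [← h, hb, Subgroup.map_bot]
  · intro A B _ _ hA _ π hπ f
    choose a ha using fun n : ℕ => hπ (f (e.rangeRestrict (Metab.FM.of n)))
    obtain ⟨g, hg⟩ := exists_lift hA a
    have hgf : π.comp g = f.comp e.rangeRestrict := hom_ext fun n => by
      show π (g (QuotientGroup.mk (FreeGroup.of n))) = _
      rw [hg]
      exact ha n
    refine ⟨g.comp e.range.subtype, MonoidHom.ext fun y => ?_⟩
    have h := DFunLike.congr_fun hgf y.1
    have hy : e.rangeRestrict y.1 = y := Subtype.ext (hidem y.1 y.2)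
    rw [MonoidHom.comp_apply, MonoidHom.comp_apply, hy] at h
    exact h
  · intro X
    refine ⟨fun φ => ?_⟩
    have hX1 : Countable X := by
      have h := φ.symm.injective.comp (of_injective X)
      exact h.countable
    have hX2 : Infinite X := by
      by_contra hfin
      rw [not_infinite_iff_finite] at hfin
      have : Group.FG (FreeGroup X ⧸ derivedSeries (FreeGroup X) 2) :=
        Group.fg_of_surjective (QuotientGroup.mk'_surjective _)
      exact hfg (Group.fg_of_surjective (f := φ.symm.toMonoidHom) φ.symm.surjective)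
    obtain ⟨t⟩ := nonempty_equiv_of_countable (α := X) (β := ℕ)
    obtain ⟨g, hg⟩ := exists_lift (X := X) (A := Metab.FM ℕ) Metab.isMetab_derivedSeries
      (fun x => Metab.FM.of (t x))
    have hm : derivedSeries (FreeGroup X ⧸ derivedSeries (FreeGroup X) 2) 2 = ⊥ := by
      rw [← map_derivedSeries_eq (QuotientGroup.mk'_surjective (derivedSeries (FreeGroup X) 2)),
        QuotientGroup.map_mk'_self]
    obtain ⟨g', hg'⟩ := exists_lift (X := ℕ) hm
      (fun n => QuotientGroup.mk (FreeGroup.of (t.symm n)))
    have h1 : g'.comp g = MonoidHom.id _ := hom_ext fun x => by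
      show g' (g (QuotientGroup.mk (FreeGroup.of x))) = _
      rw [hg]
      show g' (QuotientGroup.mk (FreeGroup.of (t x))) = _
      rw [hg', t.symm_apply_apply]
      rfl
    have h2 : g.comp g' = MonoidHom.id _ := hom_ext fun n => by
      show g (g' (QuotientGroup.mk (FreeGroup.of n))) = _
      rw [hg', hg, t.apply_symm_apply]
      rfl
    let ψ : (FreeGroup X ⧸ derivedSeries (FreeGroup X) 2) ≃* Metab.FM ℕ :=
      MonoidHom.toMulEquiv g g' h1 h2
    exact (Metab.not_free Metab.obstructionLemma Metab.muLemma).false
      ((i.trans φ).trans ψ)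

end Pool.Agent.Results.MP_52eb9f_al.RetractNotFree
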